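import Pool.Agent.Q256.MP.Stm
import Pool.Agent.W276.GE.Union

set_option autoImplicit false

/-!
# Project MP (helper256), job SMALL: points without growth have small height
-/

open Height NumberField

noncomputable section

namespace Pool.Agent.Q277.MP

open Pool.Agent.W276.GE Pool.Agent.Q256.MP

/-- the iterates of a point of large height grow -/
theorem iter_growth {N D d a : ℕ} {C η θ₁ : ℝ} {n₁ : ℕ}
    (hg : ∀ H : ℕ, 1 ≤ H → ∀ F ∈ Fb (N + 1) d H,
      NoZero F → ∀ (K : Type) [Field K] [NumberField K], Module.finrank ℚ K ≤ D →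
      ∀ P : Fin (N + 1) → K, P ≠ 0 → mulHeight P ^ d ≤ C * (H : ℝ) ^ a * mulHeight (fm F K P))
    (hi : ∀ H : ℕ, 2 ≤ H →
      ∀ X : ℕ → ℝ, (∀ n, 1 ≤ X n) → (∀ n, X n ^ 2 ≤ X (n + 1)) →
        (∀ n, X n ^ d ≤ C * (H : ℝ) ^ a * X (n + 1)) → (H : ℝ) ^ η ≤ X 0 →
        ∀ n, n₁ ≤ n → (H : ℝ) ^ (θ₁ * (d : ℝ) ^ n) ≤ X n)
    {H : ℕ} (hH : 2 ≤ H) {F : Sy N d} (hF : F ∈ Fb (N + 1) d H) (hF0 : NoZero F) {κ : ℕ}
    (hκ : (H : ℝ) ^ η ≤ 2 ^ κ) (hT : ¬ Tl D 2 κ F) (K : Type) [Field K] [NumberField K]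
    (hK : Module.finrank ℚ K ≤ D) (P : Fin (N + 1) → K) (hP : P ≠ 0)
    (hbig : (2 : ℝ) ^ κ ≤ mulHeight P) (n : ℕ) (hn : n₁ ≤ n) :
    θ₁ * (d : ℝ) ^ n * Real.log H ≤ Real.log (mulHeight ((fm F K)^[n] P)) := by
  let φ : K →+* ℂ := Classical.arbitrary _
  have hne : ∀ n, (fm F K)^[n] P ≠ 0 := by
    intro n
    induction n with
    | zero => exact hP
    | succ n ih =>
      rw [Function.iterate_succ_apply']
      exact image_ne_zero hF0 φ ih
  have hone : ∀ n, 1 ≤ mulHeight ((fm F K)^[n] P) := fun n => one_le_mulHeight _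
  have hsq : ∀ n, (2 : ℝ) ^ κ ≤ mulHeight ((fm F K)^[n] P) →
      mulHeight ((fm F K)^[n] P) ^ 2 ≤ mulHeight ((fm F K)^[n + 1] P) := by
    intro n hn
    by_contra hcon
    push Not at hcon
    rw [Function.iterate_succ_apply'] at hcon
    exact hT ⟨K, inferInstance, inferInstance, hK, (fm F K)^[n] P, hne n, hcon.le, hn⟩
  have hlow : ∀ n, (2 : ℝ) ^ κ ≤ mulHeight ((fm F K)^[n] P) := by
    intro n
    induction n with
    | zero => exact hbig
    | succ n ih =>
      refine ih.trans (le_trans ?_ (hsq n ih))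
      have h1 := hone n
      nlinarith
  have h := hi H hH (fun n => mulHeight ((fm F K)^[n] P)) hone (fun n => hsq n (hlow n))
    (fun n => by
      have h1 := hg H (by omega) F hF hF0 K hK ((fm F K)^[n] P) (hne n)
      rw [Function.iterate_succ_apply']
      exact h1) (hκ.trans hbig) n hn
  have hH0 : (0 : ℝ) < H := by exact_mod_cast (by omega : 0 < H)
  have h2 := Real.log_le_log (Real.rpow_pos_of_pos hH0 _) h
  rwa [Real.log_rpow hH0] at h2

/-- JOB MP-SMALL -/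
theorem small (h1 : S_grow) (h2 : S_iter) : S_small := by
  intro N D d η hD hd hη
  obtain ⟨C, a, hC, hg⟩ := h1 N D d (by omega)
  obtain ⟨θ₁, hθ₁, n₁, hi⟩ := h2 d a C η hd hC hη
  have hD0 : (0 : ℝ) < D := by exact_mod_cast hD
  have hd0 : (0 : ℝ) < d := by exact_mod_cast (by omega : 0 < d)
  have hd1 : (1 : ℝ) ≤ d := by exact_mod_cast (by omega : 1 ≤ d)
  refine ⟨θ₁ / (D * d), by positivity, fun H hH F hF hF0 κ hκ hT K _ _ hK P hP hG => ?_⟩
  have hH1 : (1 : ℝ) ≤ H := by exact_mod_cast (by omega : 1 ≤ H)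
  have hL : 0 ≤ Real.log H := Real.log_nonneg hH1
  have hKr : (Module.finrank ℚ K : ℝ) ≤ D := by exact_mod_cast hK
  let φ : K →+* ℂ := Classical.arbitrary _
  constructor
  · by_contra hcon
    push Not at hcon
    refine hG ⟨n₁, fun k hk => ?_⟩
    have h := iter_growth hg hi hH hF hF0 hκ hT K hK P hP hcon.le k hk
    refine le_trans ?_ h
    calc θ₁ / (D * d) * (d : ℝ) ^ k * Real.log H * Module.finrank ℚ K
        ≤ θ₁ / (D * d) * (d : ℝ) ^ k * Real.log H * D := by gcongr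
      _ = θ₁ * (d : ℝ) ^ k * Real.log H / d := by field_simp
      _ ≤ θ₁ * (d : ℝ) ^ k * Real.log H := div_le_self (by positivity) hd1
  · by_contra hcon
    push Not at hcon
    refine hG ⟨n₁ + 1, fun k hk => ?_⟩
    obtain ⟨n, rfl⟩ : ∃ n, k = n + 1 := ⟨k - 1, by omega⟩
    have h := iter_growth hg hi hH hF hF0 hκ hT K hK (fm F K P) (image_ne_zero hF0 φ hP) hcon.le n
      (by omega)
    rw [← Function.iterate_succ_apply] at h
    refine le_trans ?_ h
    calc θ₁ / (D * d) * (d : ℝ) ^ (n + 1) * Real.log H * Module.finrank ℚ K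
        ≤ θ₁ / (D * d) * (d : ℝ) ^ (n + 1) * Real.log H * D := by gcongr
      _ = θ₁ * (d : ℝ) ^ n * Real.log H := by
        rw [pow_succ]
        field_simp

end Pool.Agent.Q277.MP
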